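import Mathlib

set_option autoImplicit false

namespace Pool.Agent.Results.MP_071a69_co.WheelSeven

open SimpleGraph

/-- The wheel `W_n` on `n` vertices: the hub `none` is joined to every vertex `some i` of the
rim, and the rim is the cycle `C_(n-1)` on `Fin (n - 1)`. -/
def wheel (n : ℕ) : SimpleGraph (Option (Fin (n - 1))) where
  Adj
    | none, none => False
    | none, some _ => True
    | some _, none => True
    | some i, some j => (cycleGraph (n - 1)).Adj i j
  symm := ⟨by
    rintro (_ | i) (_ | j) h
    · exact h
    · trivial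
    · trivial
    · exact (cycleGraph (n - 1)).adj_symm h⟩
  loopless := ⟨by
    rintro (_ | i) h
    · exact h
    · exact (cycleGraph (n - 1)).irrefl h⟩

/-- The geodesic paths of `G`: paths with at least one edge whose length is the distance between
their endpoints. A path is recorded by its set of edges, so that a path and its reverse count
once, while different shortest paths with the same endpoints count separately. -/
def geodesics {V : Type} [DecidableEq V] (G : SimpleGraph V) : Set (Finset (Sym2 V)) :=
  {s | ∃ (u v : V) (p : G.Walk u v),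
    p.IsPath ∧ 0 < p.length ∧ p.length = G.dist u v ∧ s = p.edges.toFinset}

/-- `G` is a geodesic Leech graph: some labeling of the edges by positive integers makes the set of
weights of the geodesic paths equal to `{1, ..., t}`, where `t` is the number of geodesic paths. -/
def IsGeodesicLeech {V : Type} [DecidableEq V] (G : SimpleGraph V) : Prop :=
  ∃ f : Sym2 V → ℕ, (∀ e ∈ G.edgeSet, 0 < f e) ∧
    (fun s : Finset (Sym2 V) => ∑ e ∈ s, f e) '' geodesics G = Set.Icc 1 (geodesics G).ncard

theorem geodesics_eq {V : Type} [DecidableEq V] (G : SimpleGraph V)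
    (hd : ∀ u v, G.dist u v ≤ 2) :
    geodesics G = {s | ∃ u v, G.Adj u v ∧ s = {s(u, v)}} ∪
      {s | ∃ u w v, G.Adj u w ∧ G.Adj w v ∧ u ≠ v ∧ ¬ G.Adj u v ∧ s = {s(u, w), s(w, v)}} := by
  ext s
  constructor
  · rintro ⟨u, v, p, -, hpos, hlen, rfl⟩
    have h2 := hd u v
    cases p with
    | nil => simp at hpos
    | cons h q =>
      cases q with
      | nil => exact Or.inl ⟨_, _, h, by simp⟩
      | cons h' r =>
        cases r with
        | nil =>
          simp only [Walk.length_cons, Walk.length_nil] at hlen
          refine Or.inr ⟨_, _, _, h, h', ?_, ?_, by simp⟩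
          · rintro rfl
            simp at hlen
          · intro ha
            rw [dist_eq_one_iff_adj.2 ha] at hlen
            omega
        | cons h'' t =>
          simp only [Walk.length_cons] at hlen
          omega
  · rintro (⟨u, v, h, rfl⟩ | ⟨u, w, v, h, h', hne, hna, rfl⟩)
    · refine ⟨u, v, Walk.cons h Walk.nil, by simp [h.ne], by simp, ?_, by simp⟩
      rw [dist_eq_one_iff_adj.2 h]; simp
    · refine ⟨u, v, Walk.cons h (Walk.cons h' Walk.nil), by simp [h.ne, h'.ne, hne], by simp, ?_,
        by simp⟩
      have h2 := hd u v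
      have h0 : G.dist u v ≠ 0 := by
        intro h0
        rcases dist_eq_zero_iff_eq_or_not_reachable.1 h0 with h1 | h1
        · exact hne h1
        · exact h1 ⟨Walk.cons h (Walk.cons h' Walk.nil)⟩
      have h1 : G.dist u v ≠ 1 := fun h1 => hna (dist_eq_one_iff_adj.1 h1)
      simp only [Walk.length_cons, Walk.length_nil]
      omega

theorem wheel_dist_le (n : ℕ) (u v : Option (Fin (n - 1))) : (wheel n).dist u v ≤ 2 := by
  rcases u with _ | i <;> rcases v with _ | j
  · simp
  · have h : (wheel n).Adj none (some j) := trivial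
    rw [dist_eq_one_iff_adj.2 h]; omega
  · have h : (wheel n).Adj (some i) none := trivial
    rw [dist_eq_one_iff_adj.2 h]; omega
  · have h : (wheel n).Adj (some i) none := trivial
    have h' : (wheel n).Adj none (some j) := trivial
    exact dist_le (Walk.cons h (Walk.cons h' Walk.nil))

instance wheelDec : DecidableRel (wheel 7).Adj
  | none, none => isFalse id
  | none, some _ => isTrue trivial
  | some _, none => isTrue trivial
  | some i, some j => inferInstanceAs (Decidable ((cycleGraph 6).Adj i j))

/-- Labels of the spokes. -/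
def spoke : Fin 6 → ℕ := ![1, 2, 3, 15, 23, 7]

/-- Label of the rim edge from `i` to `i + 1`. -/
def rim : Fin 6 → ℕ := ![5, 6, 12, 8, 13, 14]

/-- The labeling as a symmetric function of two vertices. -/
def lab2 : Option (Fin 6) → Option (Fin 6) → ℕ
  | none, none => 0
  | none, some j => spoke j
  | some i, none => spoke i
  | some i, some j => (if j = i + 1 then rim i else 0) + (if i = j + 1 then rim j else 0)

theorem lab2_symm : ∀ a b, lab2 a b = lab2 b a := by decide

/-- The labeling of the edges. -/
def lab : Sym2 (Option (Fin 6)) → ℕ := Sym2.lift ⟨lab2, lab2_symm⟩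

/-- The geodesics of `W_7` as a finite set. -/
def geoF : Finset (Finset (Sym2 (Option (Fin (7 - 1))))) :=
  ((Finset.univ.filter fun q : Option (Fin (7 - 1)) × Option (Fin (7 - 1)) =>
      (wheel 7).Adj q.1 q.2).image fun q => {s(q.1, q.2)}) ∪
  ((Finset.univ.filter fun q : Option (Fin (7 - 1)) × Option (Fin (7 - 1)) × Option (Fin (7 - 1)) =>
      (wheel 7).Adj q.1 q.2.1 ∧ (wheel 7).Adj q.2.1 q.2.2 ∧ q.1 ≠ q.2.2 ∧
        ¬ (wheel 7).Adj q.1 q.2.2).image fun q => {s(q.1, q.2.1), s(q.2.1, q.2.2)})

theorem geodesics_wheel : geodesics (wheel 7) = ↑geoF := by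
  rw [geodesics_eq _ (wheel_dist_le 7)]
  ext s
  simp only [geoF, Set.mem_union, Set.mem_ofPred_eq, Finset.coe_union, Finset.coe_image,
    Finset.coe_filter, Finset.mem_univ, true_and, Set.mem_image, Prod.exists]
  constructor
  · rintro (⟨u, v, h, rfl⟩ | ⟨u, w, v, h, h', hne, hna, rfl⟩)
    · exact Or.inl ⟨u, v, h, rfl⟩
    · exact Or.inr ⟨u, w, v, ⟨h, h', hne, hna⟩, rfl⟩
  · rintro (⟨u, v, h, rfl⟩ | ⟨u, w, v, ⟨h, h', hne, hna⟩, rfl⟩)
    · exact Or.inl ⟨u, v, h, rfl⟩
    · exact Or.inr ⟨u, w, v, h, h', hne, hna, rfl⟩

theorem geoF_card : geoF.card = 27 := by decide +kernel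

theorem geoF_image : geoF.image (fun s => ∑ e ∈ s, lab e) = Finset.Icc 1 27 := by decide +kernel

theorem lab_pos : ∀ u v, (wheel 7).Adj u v → 0 < lab2 u v := by decide +kernel

/-- The wheel `W_7` is a geodesic Leech graph, so the conjecture that no wheel `W_n` with `n ≥ 7`
is a geodesic Leech graph is false. -/
theorem result : IsGeodesicLeech (wheel 7) := by
  refine ⟨lab, ?_, ?_⟩
  · intro e he
    induction e using Sym2.ind with
    | h u v => exact lab_pos u v he
  · rw [geodesics_wheel, Set.ncard_coe_finset, geoF_card, ← Finset.coe_image, geoF_image,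
      Finset.coe_Icc]

end Pool.Agent.Results.MP_071a69_co.WheelSeven
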